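import Pool.Agent.helper64.PB.SpecF

/-!
# pb:GRP
-/

set_option autoImplicit false

namespace Pool.Agent.PB

open Finset Polynomial

theorem GRP (hSM2 : SM2_stmt) : GRP_stmt := by
  intro K _ _ _ p L G t i ε 𝓖 hL ht hi hne hB hZ
  classical
  have h := hSM2 K p L t i ε 𝓖 hL ht hi hne hB hZ
  set H : Finset (K × Fin p → Fin L) := univ.filter fun ψ => ∃ B ∈ 𝓖, ∀ z ∈ B, hit ε ψ z with hH
  have h1 : (univ.filter fun ψ : K × Fin p → Fin L => ∃ B ∈ 𝓖, ∀ z ∈ B, hit ε ψ z).card = H.card := by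
    rw [hH]
  have h2 : Hᶜ.card + H.card = Fintype.card (K × Fin p → Fin L) := by
    rw [add_comm]
    exact Finset.card_add_card_compl H
  have h3 : Hᶜ.card * 2 ≤ Fintype.card (K × Fin p → Fin L) := by
    have : Fintype.card (K × Fin p → Fin L) ≤ H.card * 2 := h
    omega
  have h4 : (univ.filter fun ω : Fin G → (K × Fin p → Fin L) =>
      ¬ ∃ B ∈ 𝓖, ∀ z ∈ B, Ng ε ω z = true).card ≤ Hᶜ.card ^ G := by
    rw [← Fintype.card_piFinset_const]
    refine Finset.card_le_card ?_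
    intro ω hω
    rw [Finset.mem_filter] at hω
    rw [Fintype.mem_piFinset]
    intro g
    rw [Finset.mem_compl, hH, Finset.mem_filter]
    rintro ⟨_, B, hBm, hz⟩
    apply hω.2
    refine ⟨B, hBm, fun z hzB => ?_⟩
    unfold Ng
    rw [decide_eq_true_eq]
    exact ⟨g, hz z hzB⟩
  have h5 : Fintype.card (Fin G → (K × Fin p → Fin L)) = Fintype.card (K × Fin p → Fin L) ^ G := by
    rw [Fintype.card_pi_const]
  rw [h5]
  calc (univ.filter fun ω : Fin G → (K × Fin p → Fin L) =>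
      ¬ ∃ B ∈ 𝓖, ∀ z ∈ B, Ng ε ω z = true).card * 2 ^ G ≤ Hᶜ.card ^ G * 2 ^ G :=
        Nat.mul_le_mul_right _ h4
    _ = (Hᶜ.card * 2) ^ G := (mul_pow _ _ _).symm
    _ ≤ _ := Nat.pow_le_pow_left h3 G

end Pool.Agent.PB
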