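import Pool.Agent.helper64.PB.SpecL

/-!
# pb:QEE
-/

set_option autoImplicit false

namespace Pool.Agent.PB

theorem QEE (hFWD : FWD_stmt) (hCLA : CLA_stmt) (hBCK : BCK_stmt) (hNPA : NPA_stmt) : QEE_stmt := by
  intro G hG hT hW hS
  constructor
  · intro h A hA
    rcases hCLA G hT hW hS with h1 | h1
    · exact (hBCK G A hG).1 (h _ (h1 A) (hNPA A hA).1)
    · exact (hBCK G A hG).2.1 (h _ (h1 A) (hNPA A hA).2)
  · intro h A hSl hA
    exact hFWD G A hT hW hSl (h A hA)

end Pool.Agent.PB
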