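import Pool.Agent.helper64.PB.SpecB

/-!
# pb:T0C
-/

set_option autoImplicit false

namespace Pool.Agent.PB

lemma T0C_ext (f g : BF 2) (h : ∀ a b, f ![a, b] = g ![a, b]) : f = g := by
  funext x
  have e : x = ![x 0, x 1] := by
    funext i
    fin_cases i <;> rfl
  rw [e]
  exact h _ _

lemma T0C_gate (G : Set Gate) (g : Gate) (hg : g ∈ G) : InCl G g.2 := by
  refine ⟨1, [fun x => g.2 fun i => (fun (j : Fin g.1) (y : Fin g.1 → Bool) => y j) i x], ?_, by simp, Or.inl (by simp)⟩
  exact Prog.step [] g (fun j y => y j) Prog.nil hg (fun i => Or.inr ⟨i, rfl⟩)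

theorem T0C (hNMM : NMM_stmt) (hXNA : XNA_stmt) (hCLP : CLP_stmt) (hPRP : PRP_stmt) : T0C_stmt := by
  intro G h0 hz hI hM hA
  obtain ⟨hvar, hcomp⟩ := hCLP
  have zero2 : InCl G (fun _ : Fin 2 → Bool => false) :=
    hcomp G 1 2 (fC false 1) (fun _ => fun x => x 0) hz (fun _ => hvar G 2 0)
  obtain ⟨g, hg, hI'⟩ := hI
  have hI2 : ∃ a : Fin 2 → Fin g.1 → Bool, (∀ j, g.2 (a j) = true) ∧ ∀ i, ¬ ∀ j, a j i = true := by
    by_contra hc
    apply hI'
    intro a ha
    by_contra hd
    exact hc ⟨a, ha, fun i hi => hd ⟨i, hi⟩⟩
  obtain ⟨a, ha, hn⟩ := hI2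
  have hn' : ∀ i, ¬ (a 0 i = true ∧ a 1 i = true) := by
    intro i hi
    apply hn i
    intro j
    fin_cases j
    · exact hi.1
    · exact hi.2
  set φ : Fin g.1 → BF 2 := fun i =>
    if a 0 i = true then (fun x => x 0) else if a 1 i = true then (fun x => x 1) else fun _ => false with hφ
  set o : BF 2 := fun x => g.2 fun i => φ i x with ho
  have hoI : InCl G o := by
    refine hcomp G g.1 2 g.2 φ (T0C_gate G g hg) fun i => ?_
    simp only [hφ]
    split_ifs
    · exact hvar G 2 0
    · exact hvar G 2 1
    · exact zero2
  have o10 : o ![true, false] = true := by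
    have e : (fun i => φ i ![true, false]) = a 0 := by
      funext i
      simp only [hφ]
      split_ifs with h1 h2
      · simp [h1]
      · simp at h1
        simp [h1]
      · simp at h1
        simp [h1]
    show g.2 (fun i => φ i ![true, false]) = true
    rw [e]; exact ha 0
  have o01 : o ![false, true] = true := by
    have e : (fun i => φ i ![false, true]) = a 1 := by
      funext i
      simp only [hφ]
      split_ifs with h1 h2
      · have h3 : a 1 i = false := by
          by_contra hc
          rw [Bool.not_eq_false] at hc
          exact hn' i ⟨h1, hc⟩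
        simp [h3]
      · simp [h2]
      · simp at h2
        simp [h2]
    show g.2 (fun i => φ i ![false, true]) = true
    rw [e]; exact ha 1
  have o00 : o ![false, false] = false := by
    have e : (fun i => φ i ![false, false]) = fun _ => false := by
      funext i
      simp only [hφ]
      split_ifs <;> simp
    show g.2 (fun i => φ i ![false, false]) = false
    rw [e]; exact h0 g hg
  rcases hb : o ![true, true] with _ | _
  · have e : o = fXor := by
      apply T0C_ext
      intro x y
      cases x <;> cases y
      · rw [o00]; rfl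
      · rw [o01]; rfl
      · rw [o10]; rfl
      · rw [hb]; rfl
    have hX : InCl G fXor := e ▸ hoI
    have hAnd : InCl G fAnd := hXNA G h0 hX hA
    refine ⟨?_, fXor, hX, rfl, rfl, rfl⟩
    have h1 := hcomp G 2 2 fXor (fun i => if i = 0 then fXor else fAnd) hX
      (fun i => by split_ifs; exact hX; exact hAnd)
    have e2 : (fun x : Fin 2 → Bool => fXor fun i => (if i = 0 then fXor else fAnd : BF 2) x) = fOr := by
      apply T0C_ext
      intro x y
      cases x <;> cases y <;> rfl
    rw [e2] at h1
    exact h1
  · have e : o = fOr := by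
      apply T0C_ext
      intro x y
      cases x <;> cases y
      · rw [o00]; rfl
      · rw [o01]; rfl
      · rw [o10]; rfl
      · rw [hb]; rfl
    have hO : InCl G fOr := e ▸ hoI
    refine ⟨hO, ?_⟩
    obtain ⟨f, hf, hfM⟩ := hM
    obtain ⟨σ, s1, s2⟩ := hNMM f.1 f.2 hfM
    set ψ : Fin f.1 → BF 2 := fun i => (![fun x => x 0, fun _ => false, fun x => x 1] : Fin 3 → BF 2) (σ i) with hψ
    refine ⟨fun x => f.2 fun i => ψ i x, ?_, ?_, ?_, ?_⟩
    · refine hcomp G f.1 2 f.2 ψ (T0C_gate G f hf) fun i => ?_
      simp only [hψ]
      have h3 : ∀ j : Fin 3, InCl G ((![fun x => x 0, fun _ => false, fun x => x 1] : Fin 3 → BF 2) j) := by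
        intro j
        fin_cases j
        · exact hvar G 2 0
        · exact zero2
        · exact hvar G 2 1
      exact h3 (σ i)
    · have e2 : (fun i => ψ i ![false, false]) = fun _ => false := by
        funext i
        simp only [hψ]
        have h3 : ∀ j : Fin 3, (![fun x => x 0, fun _ => false, fun x => x 1] : Fin 3 → BF 2) j ![false, false] = false := by
          intro j
          fin_cases j <;> rfl
        exact h3 (σ i)
      show f.2 (fun i => ψ i ![false, false]) = false
      rw [e2]; exact h0 f hf
    · have e2 : (fun i => ψ i ![true, false]) = fun i => (![true, false, false] : Fin 3 → Bool) (σ i) := by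
        funext i
        simp only [hψ]
        have h3 : ∀ j : Fin 3, (![fun x => x 0, fun _ => false, fun x => x 1] : Fin 3 → BF 2) j ![true, false] =
            (![true, false, false] : Fin 3 → Bool) j := by
          intro j
          fin_cases j <;> rfl
        exact h3 (σ i)
      show f.2 (fun i => ψ i ![true, false]) = true
      rw [e2]; exact s1
    · have e2 : (fun i => ψ i ![true, true]) = fun i => (![true, false, true] : Fin 3 → Bool) (σ i) := by
        funext i
        simp only [hψ]
        have h3 : ∀ j : Fin 3, (![fun x => x 0, fun _ => false, fun x => x 1] : Fin 3 → BF 2) j ![true, true] =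
            (![true, false, true] : Fin 3 → Bool) j := by
          intro j
          fin_cases j <;> rfl
        exact h3 (σ i)
      show f.2 (fun i => ψ i ![true, true]) = false
      rw [e2]; exact s2

end Pool.Agent.PB
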